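import Pool.Agent.Helper45.LGB.St

/-!
# Module DSA of project LGB: distribution of a word over the factors
-/

set_option autoImplicit false

open Pool.Agent.Helper45.LGB

namespace Pool.Agent.Helper7.LGB

/-- The replacement of one of the words. -/
private def RS {p : ℕ} {ι V : Type} [AddCommGroup V] [Module (ZMod p) V]
    (f : ι → Module.End (ZMod p) V) (v : V) (z : ι) (us : List (List ι))
    (l : List (Module.End (ZMod p) V)) : Set V :=
  {x | ∃ (a : List (List ι)) (w : List ι) (b : List (List ι)), us = a ++ w :: b ∧
    x = (List.zipWith (ad f) (a ++ (w ++ [z]) :: b) l).prod v}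

private lemma ad_snoc {p : ℕ} {ι V : Type} [AddCommGroup V] [Module (ZMod p) V]
    (f : ι → Module.End (ZMod p) V) (w : List ι) (z : ι) (ν : Module.End (ZMod p) V) :
    ad f (w ++ [z]) ν = cb (f z) (ad f w ν) := by
  simp [ad, List.foldl_append]

private lemma rep (hLST : StLST) {p : ℕ} {ι V : Type} [AddCommGroup V] [Module (ZMod p) V]
    (f : ι → Module.End (ZMod p) V) (Y : Set ι) (W' : Submodule (ZMod p) V) (v : V)
    (hW : Stb f Y W') (z : ι) (hv : f z v ∈ W') :
    ∀ (us : List (List ι)) (l : List (Module.End (ZMod p) V)), us.length = l.length →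
    (∀ ν ∈ l, Lam f Y ν) → (∀ u' ∈ us, ∀ i ∈ u', i ∈ Y) →
    f z ((List.zipWith (ad f) us l).prod v) ∈ Submodule.span (ZMod p) (RS f v z us l) ⊔ W' := by
  obtain ⟨h1, _, _, _, h5, _⟩ := hLST p ι V f Y
  intro us
  induction us with
  | nil =>
    intro l _ _ _
    simp only [List.zipWith_nil_left, List.prod_nil]
    exact Submodule.mem_sup_right hv
  | cons w us ih =>
    intro l hlen hl hus
    match l, hlen with
    | [], hlen => simp at hlen
    | ν :: l', hlen =>
      have hlen' : us.length = l'.length := by simpa using hlen
      have hν : Lam f Y ν := hl ν (by simp)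
      have hl' : ∀ μ ∈ l', Lam f Y μ := fun μ hμ => hl μ (by simp [hμ])
      have hw : ∀ i ∈ w, i ∈ Y := hus w (by simp)
      have hus' : ∀ u' ∈ us, ∀ i ∈ u', i ∈ Y := fun u' hu' => hus u' (by simp [hu'])
      have hadl : Lam f Y (ad f w ν) := h5 w ν hw hν
      set μ : Module.End (ZMod p) V := ad f w ν with hμ
      set L : List (Module.End (ZMod p) V) := List.zipWith (ad f) us l' with hL
      have e0 : (List.zipWith (ad f) (w :: us) (ν :: l')).prod v = μ (L.prod v) := by
        simp only [List.zipWith_cons_cons, List.prod_cons]
        rfl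
      have e1 : f z (μ (L.prod v)) = (cb (f z) μ) (L.prod v) + μ (f z (L.prod v)) := by
        simp only [cb, LinearMap.sub_apply, Module.End.mul_apply]
        abel
      rw [e0, e1]
      refine Submodule.add_mem _ ?_ ?_
      · refine Submodule.mem_sup_left (Submodule.subset_span ?_)
        refine ⟨[], w, us, rfl, ?_⟩
        simp only [List.nil_append, List.zipWith_cons_cons, List.prod_cons, ad_snoc]
        rfl
      · have hI := ih l' hlen' hl' hus'
        have hle : Submodule.span (ZMod p) (RS f v z us l') ⊔ W' ≤
            (Submodule.span (ZMod p) (RS f v z (w :: us) (ν :: l')) ⊔ W').comap μ := by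
          refine sup_le ?_ ?_
          · rw [Submodule.span_le]
            rintro x ⟨a, w', b, hab, rfl⟩
            refine Submodule.mem_sup_left (Submodule.subset_span ?_)
            refine ⟨w :: a, w', b, by rw [hab]; rfl, ?_⟩
            simp only [List.cons_append, List.zipWith_cons_cons, List.prod_cons]
            rfl
          · intro x hx
            exact Submodule.mem_sup_right (h1 W' hW μ hadl x hx)
        exact hle hI

theorem hDSA (hLST : StLST) : StDSA := by
  intro p ι V _ _ f Y Z W' v hZY hW hv l hl u
  induction u using List.reverseRecOn with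
  | nil =>
    intro _
    refine Submodule.mem_sup_left (Submodule.subset_span ?_)
    refine ⟨List.replicate l.length [], by simp, ?_, by simp, ?_⟩
    · intro u' hu' i hi
      rw [List.mem_replicate] at hu'
      rw [hu'.2] at hi
      exact hi
    · have e : List.zipWith (ad f) (List.replicate l.length []) l = l := by
        clear hl
        induction l with
        | nil => simp
        | cons ν l ih =>
          simp only [List.length_cons, List.replicate_succ, List.zipWith_cons_cons, ih]
          rfl
      rw [e]
      rfl
  | append_singleton u z ih =>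
    intro hu
    have hu' : ∀ i ∈ u, i ∈ Z := fun i hi => hu i (by simp [hi])
    have hz : z ∈ Z := hu z (by simp)
    have hI := ih hu'
    have e0 : act f (u ++ [z]) (l.prod v) = f z (act f u (l.prod v)) := by
      simp [act, List.foldl_append]
    rw [e0]
    have hle : Submodule.span (ZMod p) {x | ∃ us : List (List ι),
        us.length = l.length ∧ (∀ u' ∈ us, ∀ i ∈ u', i ∈ u) ∧ (∀ i ∈ u, ∃ u' ∈ us, i ∈ u') ∧
        x = (List.zipWith (ad f) us l).prod v} ⊔ W' ≤
        (Submodule.span (ZMod p) {x | ∃ us : List (List ι),
        us.length = l.length ∧ (∀ u' ∈ us, ∀ i ∈ u', i ∈ u ++ [z]) ∧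
        (∀ i ∈ u ++ [z], ∃ u' ∈ us, i ∈ u') ∧
        x = (List.zipWith (ad f) us l).prod v} ⊔ W').comap (f z) := by
      refine sup_le ?_ ?_
      · rw [Submodule.span_le]
        rintro x ⟨us, hlen, hin, hcov, rfl⟩
        have hrep := rep hLST f Y W' v hW z (hv z hz) us l hlen hl
          (fun u' hu1 i hi => hZY (hu' i (hin u' hu1 i hi)))
        have hle2 : Submodule.span (ZMod p) (RS f v z us l) ⊔ W' ≤
            Submodule.span (ZMod p) {x | ∃ us : List (List ι),
            us.length = l.length ∧ (∀ u' ∈ us, ∀ i ∈ u', i ∈ u ++ [z]) ∧
            (∀ i ∈ u ++ [z], ∃ u' ∈ us, i ∈ u') ∧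
            x = (List.zipWith (ad f) us l).prod v} ⊔ W' := by
          refine sup_le_sup_right ?_ _
          refine Submodule.span_mono ?_
          rintro x ⟨a, w, b, hab, rfl⟩
          refine ⟨a ++ (w ++ [z]) :: b, ?_, ?_, ?_, rfl⟩
          · rw [← hlen, hab]; simp
          · intro u1 hu1 i hi
            rw [List.mem_append, List.mem_cons] at hu1
            rcases hu1 with h | h | h
            · exact List.mem_append_left _ (hin u1 (by rw [hab]; simp [h]) i hi)
            · rw [h, List.mem_append] at hi
              rcases hi with hi | hi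
              · exact List.mem_append_left _ (hin w (by rw [hab]; simp) i hi)
              · exact List.mem_append_right _ hi
            · exact List.mem_append_left _ (hin u1 (by rw [hab]; simp [h]) i hi)
          · intro i hi
            rw [List.mem_append] at hi
            rcases hi with hi | hi
            · obtain ⟨u1, hu1, hi1⟩ := hcov i hi
              rw [hab, List.mem_append, List.mem_cons] at hu1
              rcases hu1 with h | h | h
              · exact ⟨u1, by simp [h], hi1⟩
              · exact ⟨w ++ [z], by simp, by rw [← h]; simp [hi1]⟩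
              · exact ⟨u1, by simp [h], hi1⟩
            · exact ⟨w ++ [z], by simp, by simp at hi; simp [hi]⟩
        exact hle2 hrep
      · intro x hx
        exact Submodule.mem_sup_right (hW z (hZY hz) x hx)
    exact hle hI

end Pool.Agent.Helper7.LGB
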